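import Pool.Agent.R602.HE.End

/-!
# The Hewitt extension of a P-space need not be a P-space in ZF

The definitions are in `Pool.Agent.R602.HE.Defs`, `Pool.Agent.R602.PP.Defs`,
`Pool.Agent.R602.CO.Base`, `Pool.Agent.R598.PM.TopDefs`, `Pool.Agent.R598.PM.Defs` and
`Pool.Agent.W868.Defs`.
-/

namespace Pool.Agent.Results.MP_a61393_lc.HewittNotPSpace

open Pool.Agent.W868 Pool.Agent.R602.PP Pool.Agent.R602.HE
open Pool.Agent.R602.CO (ltQ)
open Pool.Agent.R598.PM (IsTop)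

/-- There is a countable transitive model of ZF that contains a Tychonoff space `E` such that the
discrete space of the real numbers is `E`-compact, and an `E`-completely regular P-space `X`, such
that the Hewitt `E`-compact extension of `X` is not a P-space. -/
theorem result : ∃ M : Set ZFSet.{0}, M.Countable ∧ IsZF M ∧ ltQ ∈ M ∧
    ∃ E ∈ M, ∃ σ ∈ M, IsTychonoff M E σ ∧
      (∃ R ∈ M, ∃ δ ∈ M, IsRealDisc M R δ ∧ ECompact M E σ R δ) ∧
      ∃ X ∈ M, ∃ τ ∈ M, ECompletelyRegular M E σ X τ ∧ IsPSpace M X τ ∧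
        ∃ C ∈ M, ∃ H ∈ M, ∃ η ∈ M, IsHewitt M E σ X τ C H η ∧ IsTop M H η ∧
          ¬ IsPSpace M H η := by
  obtain ⟨M, hM, b, A, K, L, R, δ, X, τ, c⟩ := exists_ctx
  obtain ⟨C, hCM, hC⟩ := c.exists_C
  obtain ⟨H, hH, η, hη, h⟩ := exists_hewitt c.zf c.RM c.δM c.XM hCM hC
  exact ⟨M, hM, c.zf, c.lt, R, c.RM, δ, c.δM, tychonoff_disc c.zf c.lt c.RM c.real,
    ⟨R, c.RM, δ, c.δM, c.real, eCompact_disc c.zf c.RM c.δM c.real⟩, X, c.XM, τ, c.τM,
    c.eReg hCM hC, c.psp, C, hCM, H, hH, η, hη, h, h.isTop c.zf hH, c.not_psp hCM hH h⟩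

end Pool.Agent.Results.MP_a61393_lc.HewittNotPSpace
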